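import Pool.Agent.Work.MP_3f690c_an.Suff
import Pool.Agent.Work.MP_3f690c_an.Struct
import Pool.Agent.Work.MP_3f690c_an.ThinOf
import Pool.Agent.Work.MP_3f690c_an.Necess

/-!
# C*-algebras with the positive Toeplitz completion property

For every C*-algebra `A` (unital or not), thin and near scalar are equivalent and both imply that
`A` belongs to the positive Toeplitz completion class. If `A` has a dense subset of cardinality
smaller than the continuum (in particular if `A` is separable), then thinness characterises the
class, and completability of all positive `2 × 2` Toeplitz data to size `3` is already enough.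
-/

namespace Pool.Agent.Results.MP_3f690c_an.Characterization

open Pool.Agent.Work.MP_3f690c_an

universe u

theorem result {A : Type u} [NonUnitalCStarAlgebra A] [PartialOrder A] [StarOrderedRing A] :
    (Thin A ↔ HasNearScalarFamily A) ∧ (Thin A → PTC A) ∧
      ((∃ S : Set A, Dense S ∧ Cardinal.mk S < Cardinal.continuum) →
        (PTC A ↔ Thin A) ∧ (StepProp A 2 ↔ Thin A)) := by
  have h12 : PTC A → StepProp A 2 := fun h => h 2 3 (by norm_num) (by norm_num)
  have h31 : Thin A → PTC A := fun h => ptc_of_nearScalar (nearScalar_of_thin h)
  rw [hasNearScalarFamily_iff]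
  refine ⟨⟨nearScalar_of_thin, thin_of_nearScalar⟩, h31, fun hS => ?_⟩
  exact ⟨⟨fun h => thin_of_step hS (h12 h), h31⟩, ⟨thin_of_step hS, fun h => h12 (h31 h)⟩⟩

end Pool.Agent.Results.MP_3f690c_an.Characterization
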