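import Pool.Agent.Work.MP_3f690c_an.T3.Main

/-!
# The positive Toeplitz completion class: unital C*-algebras without characters

A unital C*-algebra with the Douglas factorisation property belongs to the positive Toeplitz
completion class. For unital C*-algebras without characters (in particular for all algebras
`M_n(A)`, `n ≥ 2`) the Douglas property is also necessary, and completability of all positive
`2 × 2` Toeplitz data to size `3` is already enough.
-/

namespace Pool.Agent.Results.MP_3f690c_an.NoCharacters

open Pool.Agent.Work.MP_3f690c_an Pool.Agent.Work.MP_3f690c_an.T3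

universe u

theorem result {A : Type u} [CStarAlgebra A] [PartialOrder A] [StarOrderedRing A] :
    (Douglas A → PTC A) ∧
      (IsEmpty (WeakDual.characterSpace ℂ A) →
        (PTC A ↔ Douglas A) ∧ (StepProp A 2 ↔ Douglas A)) ∧
      ∀ n : ℕ, 2 ≤ n →
        (PTC (CStarMatrix (Fin n) (Fin n) A) ↔ Douglas A) ∧
          (StepProp (CStarMatrix (Fin n) (Fin n) A) 2 ↔ Douglas A) :=
  ⟨ptc_of_douglas, characterization, fun _ hn => characterization_matrix hn⟩

end Pool.Agent.Results.MP_3f690c_an.NoCharacters
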